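import Mathlib
import Pool.Agent.Helper1.FF2.Goals2

/-!
Packet 938 (MP_7cb822_co): the number of faces at a vertex is its degree.
-/

set_option autoImplicit false

namespace Pool.Agent.Helper9.FF

open Finset
open scoped Classical
open Pool.Agent.Helper34.FF Pool.Agent.Helper1.FF2

theorem pf_StmtFaceDeg : StmtFaceDeg := by
  intro V F _ _ T u
  have h := Finset.sum_card_bipartiteAbove_eq_sum_card_bipartiteBelow
    (s := univ.filter fun f => u ∈ T.tri f) (t := univ.filter fun v => T.G.Adj u v)
    (fun f v => v ∈ T.tri f)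
  have h1 : ∀ f ∈ (univ.filter fun f => u ∈ T.tri f),
      ((univ.filter fun v => T.G.Adj u v).bipartiteAbove (fun f v => v ∈ T.tri f) f).card = 2 := by
    intro f hf
    have hu : u ∈ T.tri f := (mem_filter.1 hf).2
    have he : (univ.filter fun v => T.G.Adj u v).bipartiteAbove (fun f v => v ∈ T.tri f) f =
        (T.tri f).erase u := by
      ext v
      simp only [Finset.mem_bipartiteAbove, mem_filter, mem_univ, true_and, mem_erase]
      constructor
      · rintro ⟨h2, h3⟩
        exact ⟨h2.ne', h3⟩
      · rintro ⟨h2, h3⟩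
        exact ⟨T.tri_adj f u hu v h3 (Ne.symm h2), h3⟩
    rw [he, card_erase_of_mem hu, T.tri_card]
  have h2 : ∀ v ∈ (univ.filter fun v => T.G.Adj u v),
      ((univ.filter fun f => u ∈ T.tri f).bipartiteBelow (fun f v => v ∈ T.tri f) v).card = 2 := by
    intro v hv
    have hadj : T.G.Adj u v := (mem_filter.1 hv).2
    have he : (univ.filter fun f => u ∈ T.tri f).bipartiteBelow (fun f v => v ∈ T.tri f) v =
        univ.filter fun f => u ∈ T.tri f ∧ v ∈ T.tri f := by
      ext f
      simp only [Finset.mem_bipartiteBelow, mem_filter, mem_univ, true_and]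
    rw [he, T.two u v hadj]
  rw [Finset.sum_congr rfl h1, Finset.sum_congr rfl h2] at h
  simp only [sum_const, smul_eq_mul] at h
  omega

end Pool.Agent.Helper9.FF
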